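import Mathlib

set_option autoImplicit false

namespace Pool.Agent.Results.MP_39e2b7_an.RationalLeaves

open MeasureTheory Set Function

/-- The standing hypotheses: `F` is an analytic bijective area preserving monotone twist lift and
the plane is partitioned into the invariant graphs of the continuous `1`-periodic functions `u c`. -/
structure Fol (F : ℝ × ℝ → ℝ × ℝ) (u : ℝ → ℝ → ℝ) : Prop where
  an : AnalyticOnNhd ℝ F Set.univ
  bij : Function.Bijective F
  per : ∀ x y : ℝ, F (x + 1, y) = ((F (x, y)).1 + 1, (F (x, y)).2)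
  area : ∀ p : ℝ × ℝ, LinearMap.det (fderiv ℝ F p : ℝ × ℝ →ₗ[ℝ] ℝ × ℝ) = 1
  twist : ∀ x y : ℝ, 0 < deriv (fun t : ℝ => (F (x, t)).1) y
  cont : ∀ c : ℝ, Continuous (u c)
  uper : ∀ c x : ℝ, u c (x + 1) = u c x
  inv : ∀ c x : ℝ, (F (x, u c x)).2 = u c (F (x, u c x)).1
  fol : ∀ p : ℝ × ℝ, ∃! c : ℝ, p.2 = u c p.1

section
variable {F : ℝ × ℝ → ℝ × ℝ} {u : ℝ → ℝ → ℝ}

/-- The dynamics on the leaf `c`, read on the first coordinate. -/
def g (F : ℝ × ℝ → ℝ × ℝ) (u : ℝ → ℝ → ℝ) (c x : ℝ) : ℝ := (F (x, u c x)).1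

lemma leaf_unique (h : Fol F u) {c d x : ℝ} (e : u c x = u d x) : c = d :=
  (h.fol (x, u c x)).unique rfl e

lemma leaf_exists (h : Fol F u) (x y : ℝ) : ∃ c, y = u c x := (h.fol (x, y)).exists

lemma order (h : Fol F u) {c d x : ℝ} (hx : u c x < u d x) (y : ℝ) : u c y < u d y := by
  by_contra hy
  have hy' : u d y ≤ u c y := not_lt.mp hy
  have hc : Continuous fun t => u c t - u d t := (h.cont c).sub (h.cont d)
  have h1 : (0 : ℝ) ∈ Set.range fun t => u c t - u d t :=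
    mem_range_of_exists_le_of_exists_ge hc ⟨x, by simp; linarith⟩ ⟨y, by simp; linarith⟩
  obtain ⟨t, ht⟩ := h1
  have h2 : u c t = u d t := by simp at ht; linarith
  have h3 := leaf_unique h h2
  rw [h3] at hx
  exact lt_irrefl _ hx

lemma F_leaf (h : Fol F u) (c x : ℝ) : F (x, u c x) = (g F u c x, u c (g F u c x)) :=
  Prod.ext rfl (h.inv c x)

lemma F_iter (h : Fol F u) (c x : ℝ) (k : ℕ) :
    F^[k] (x, u c x) = ((g F u c)^[k] x, u c ((g F u c)^[k] x)) := by
  induction k with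
  | zero => rfl
  | succ k ih => rw [iterate_succ_apply', ih, F_leaf h, iterate_succ_apply']

lemma g_cont (h : Fol F u) (c : ℝ) : Continuous (g F u c) := by
  have h1 : Continuous F := by
    rw [← continuousOn_univ]; exact h.an.continuousOn
  exact continuous_fst.comp (h1.comp (continuous_id.prodMk (h.cont c)))

lemma g_add_one (h : Fol F u) (c x : ℝ) : g F u c (x + 1) = g F u c x + 1 := by
  unfold g; rw [h.uper, h.per]

lemma g_inj (h : Fol F u) (c : ℝ) : Injective (g F u c) := by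
  intro x y e
  have h1 : F (x, u c x) = F (y, u c y) := by rw [F_leaf h, F_leaf h, e]
  exact congrArg Prod.fst (h.bij.1 h1)

lemma g_mono (h : Fol F u) (c : ℝ) : StrictMono (g F u c) := by
  rcases (g_cont h c).strictMono_of_inj (g_inj h c) with h1 | h1
  · exact h1
  · exfalso
    have h2 := h1 (show (0 : ℝ) < 0 + 1 by norm_num)
    rw [g_add_one h] at h2
    linarith

lemma g_surj (h : Fol F u) (c : ℝ) : Surjective (g F u c) := by
  intro x
  obtain ⟨⟨a, b⟩, hab⟩ := h.bij.2 (x, u c x)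
  obtain ⟨d, rfl⟩ := leaf_exists h a b
  rw [F_leaf h] at hab
  have h1 : g F u d a = x := congrArg Prod.fst hab
  have h2 : u d (g F u d a) = u c x := congrArg Prod.snd hab
  rw [h1] at h2
  have h3 := leaf_unique h h2
  subst h3
  exact ⟨a, h1⟩

lemma gi_mono (h : Fol F u) (c : ℝ) (k : ℕ) : StrictMono ((g F u c)^[k]) := (g_mono h c).iterate k

lemma gi_surj (h : Fol F u) (c : ℝ) (k : ℕ) : Surjective ((g F u c)^[k]) := (g_surj h c).iterate k

lemma gi_cont (h : Fol F u) (c : ℝ) (k : ℕ) : Continuous ((g F u c)^[k]) := (g_cont h c).iterate k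

lemma gi_add_one (h : Fol F u) (c : ℝ) (k : ℕ) (x : ℝ) :
    (g F u c)^[k] (x + 1) = (g F u c)^[k] x + 1 := by
  induction k with
  | zero => rfl
  | succ k ih => rw [iterate_succ_apply', ih, g_add_one h, iterate_succ_apply']

lemma twist_mono (h : Fol F u) (x : ℝ) : StrictMono fun t : ℝ => (F (x, t)).1 :=
  strictMono_of_deriv_pos (h.twist x)

/-- Higher leaves move more to the right. -/
lemma gi_lt (h : Fol F u) {c d x : ℝ} (hx : u c x < u d x) (k : ℕ) (y : ℝ) :
    (g F u c)^[k + 1] y < (g F u d)^[k + 1] y := by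
  have hg : ∀ y, g F u c y < g F u d y := fun y => twist_mono h y (order h hx y)
  induction k with
  | zero => simpa using hg y
  | succ k ih =>
    rw [iterate_succ_apply' _ (k + 1), iterate_succ_apply' _ (k + 1)]
    exact (g_mono h c ih).trans (hg _)

/-- `X_k` is strictly increasing in the height. -/
lemma Xk_mono (h : Fol F u) (k : ℕ) (x : ℝ) : StrictMono fun t : ℝ => (F^[k + 1] (x, t)).1 := by
  intro s t hst
  obtain ⟨c, hc⟩ := leaf_exists h x s
  obtain ⟨d, hd⟩ := leaf_exists h x t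
  have h1 : u c x < u d x := by rw [← hc, ← hd]; exact hst
  show (F^[k + 1] (x, s)).1 < (F^[k + 1] (x, t)).1
  rw [hc, hd, F_iter h, F_iter h]
  exact gi_lt h h1 k x

/-! ### Derivatives of the iterates -/

lemma F_diff (h : Fol F u) (z : ℝ × ℝ) : HasFDerivAt F (fderiv ℝ F z) z :=
  (h.an z (mem_univ z)).differentiableAt.hasFDerivAt

lemma iter_an (h : Fol F u) (k : ℕ) : AnalyticOnNhd ℝ (F^[k]) univ := by
  induction k with
  | zero => exact analyticOnNhd_id
  | succ k ih =>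
    rw [iterate_succ']
    exact h.an.comp ih (mapsTo_univ _ _)

lemma iter_diff (h : Fol F u) (k : ℕ) (z : ℝ × ℝ) :
    HasFDerivAt (F^[k]) (fderiv ℝ (F^[k]) z) z :=
  ((iter_an h k) z (mem_univ z)).differentiableAt.hasFDerivAt

lemma iter_fderiv_succ (h : Fol F u) (k : ℕ) (z : ℝ × ℝ) :
    fderiv ℝ (F^[k + 1]) z = (fderiv ℝ F (F^[k] z)).comp (fderiv ℝ (F^[k]) z) := by
  rw [iterate_succ']
  exact ((F_diff h (F^[k] z)).comp z (iter_diff h k z)).fderiv

lemma iter_det (h : Fol F u) (k : ℕ) (z : ℝ × ℝ) : (fderiv ℝ (F^[k]) z).det = 1 := by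
  induction k with
  | zero => simp [ContinuousLinearMap.det]
  | succ k ih =>
    rw [iter_fderiv_succ h]
    have h1 := h.area (F^[k] z)
    have h2 : (((fderiv ℝ F (F^[k] z)).comp (fderiv ℝ (F^[k]) z) : ℝ × ℝ →L[ℝ] ℝ × ℝ) :
        ℝ × ℝ →ₗ[ℝ] ℝ × ℝ) = (fderiv ℝ F (F^[k] z) : ℝ × ℝ →ₗ[ℝ] ℝ × ℝ) ∘ₗ
          (fderiv ℝ (F^[k]) z : ℝ × ℝ →ₗ[ℝ] ℝ × ℝ) := rfl
    simp only [ContinuousLinearMap.det] at ih ⊢
    rw [h2, LinearMap.det_comp, h1, ih, one_mul]

/-- The determinant of an endomorphism of the plane in coordinates. -/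
lemma det_plane (A : ℝ × ℝ →ₗ[ℝ] ℝ × ℝ) :
    LinearMap.det A = (A (1, 0)).1 * (A (0, 1)).2 - (A (0, 1)).1 * (A (1, 0)).2 := by
  rw [← LinearMap.det_toMatrix (Module.Basis.finTwoProd ℝ), Matrix.det_fin_two]
  simp [LinearMap.toMatrix_apply]

/-- Solving a unimodular system. -/
lemma apply_plane (A : ℝ × ℝ →ₗ[ℝ] ℝ × ℝ) (v : ℝ × ℝ) :
    A v = (v.1 * (A (1, 0)).1 + v.2 * (A (0, 1)).1, v.1 * (A (1, 0)).2 + v.2 * (A (0, 1)).2) := by
  have h1 : v = v.1 • ((1, 0) : ℝ × ℝ) + v.2 • ((0, 1) : ℝ × ℝ) := by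
    ext <;> simp
  conv_lhs => rw [h1]
  rw [map_add, map_smul, map_smul]
  ext <;> simp

lemma twist_fderiv (h : Fol F u) (z : ℝ × ℝ) : 0 < (fderiv ℝ F z (0, 1)).1 := by
  obtain ⟨x, y⟩ := z
  have h1 : HasDerivAt (fun t : ℝ => ((x, t) : ℝ × ℝ)) ((0, 1) : ℝ × ℝ) y :=
    (hasDerivAt_const y x).prodMk (hasDerivAt_id y)
  have h2 := (F_diff h (x, y)).comp_hasDerivAt y h1
  have h3 : HasDerivAt (fun t : ℝ => (F (x, t)).1) (fderiv ℝ F (x, y) (0, 1)).1 y := h2.fst
  have h4 := h.twist x y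
  rwa [h3.deriv] at h4

lemma Xk_hasDeriv (h : Fol F u) (k : ℕ) (x y : ℝ) :
    HasDerivAt (fun t : ℝ => (F^[k] (x, t)).1) (fderiv ℝ (F^[k]) (x, y) (0, 1)).1 y := by
  have h1 : HasDerivAt (fun t : ℝ => ((x, t) : ℝ × ℝ)) ((0, 1) : ℝ × ℝ) y :=
    (hasDerivAt_const y x).prodMk (hasDerivAt_id y)
  have h2 := (iter_diff h k (x, y)).comp_hasDerivAt y h1
  exact h2.fst

lemma Xk_deriv_nonneg (h : Fol F u) (k : ℕ) (z : ℝ × ℝ) :
    0 ≤ (fderiv ℝ (F^[k + 1]) z (0, 1)).1 := by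
  obtain ⟨x, y⟩ := z
  have h1 := (Xk_hasDeriv h (k + 1) x y).deriv
  rw [← h1]
  exact (Xk_mono h k x).monotone.deriv_nonneg

/-- No conjugate points: `∂ X_k / ∂ y > 0`. -/
lemma Xk_deriv_pos (h : Fol F u) (k : ℕ) (z : ℝ × ℝ) :
    0 < (fderiv ℝ (F^[k + 1]) z (0, 1)).1 := by
  induction k with
  | zero => simpa using twist_fderiv h z
  | succ k ih =>
    refine lt_of_le_of_ne (Xk_deriv_nonneg h (k + 1) z) (fun h0 => ?_)
    set v := fderiv ℝ (F^[k + 1]) z (0, 1) with hv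
    set w := fderiv ℝ (F^[k + 1 + 1]) z (0, 1) with hw
    set A : ℝ × ℝ →ₗ[ℝ] ℝ × ℝ := (fderiv ℝ F (F^[k + 1] z) : ℝ × ℝ →ₗ[ℝ] ℝ × ℝ) with hA
    set B : ℝ × ℝ →ₗ[ℝ] ℝ × ℝ := (fderiv ℝ F (F^[k + 1 + 1] z) : ℝ × ℝ →ₗ[ℝ] ℝ × ℝ) with hB
    have hwv : w = A v := by rw [hw, iter_fderiv_succ h]; rfl
    have hBw : fderiv ℝ (F^[k + 1 + 1 + 1]) z (0, 1) = B w := by
      rw [iter_fderiv_succ h]; rfl
    have h2 : 0 ≤ (B w).1 := by rw [← hBw]; exact Xk_deriv_nonneg h (k + 1 + 1) z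
    have hBt : 0 < (B (0, 1)).1 := twist_fderiv h _
    have hAt : 0 < (A (0, 1)).1 := twist_fderiv h _
    have hdet : (A (1, 0)).1 * (A (0, 1)).2 - (A (0, 1)).1 * (A (1, 0)).2 = 1 := by
      rw [← det_plane]; exact h.area _
    rw [apply_plane B w] at h2
    simp only at h2
    rw [← h0, zero_mul, zero_add] at h2
    have hw2 : 0 ≤ w.2 := by
      by_contra hneg
      have : w.2 * (B (0, 1)).1 < 0 := mul_neg_of_neg_of_pos (not_le.mp hneg) hBt
      linarith
    rw [apply_plane A v] at hwv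
    have e1 : w.1 = v.1 * (A (1, 0)).1 + v.2 * (A (0, 1)).1 := by rw [hwv]
    have e2 : w.2 = v.1 * (A (1, 0)).2 + v.2 * (A (0, 1)).2 := by rw [hwv]
    rw [← h0] at e1
    have e3 : v.1 = - (A (0, 1)).1 * w.2 := by
      rw [e2]
      linear_combination (-(v.1)) * hdet - (A (0, 1)).2 * e1
    have e4 : 0 ≤ (A (0, 1)).1 * w.2 := mul_nonneg hAt.le hw2
    linarith

/-! ### The area argument -/

/-- The mean displacement of an area preserving injective map over a bounded invariant open set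
vanishes. -/
lemma push_zero (Φ : ℝ × ℝ → ℝ × ℝ) (Φ' : ℝ × ℝ → ℝ × ℝ →L[ℝ] ℝ × ℝ) (L : Set (ℝ × ℝ))
    (hopen : IsOpen L) (hbd : Bornology.IsBounded L)
    (hd : ∀ z ∈ L, HasFDerivAt Φ (Φ' z) z) (hdet : ∀ z ∈ L, |(Φ' z).det| = 1)
    (hinj : InjOn Φ L) (himg : Φ '' L = L) :
    IntegrableOn (fun z : ℝ × ℝ => z.1 - (Φ z).1) L ∧ ∫ z in L, (z.1 - (Φ z).1) = 0 := by
  have h1 := integral_image_eq_integral_abs_det_fderiv_smul (volume : Measure (ℝ × ℝ))
    hopen.measurableSet (fun z hz => (hd z hz).hasFDerivWithinAt) hinj (fun z : ℝ × ℝ => z.1)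
  rw [himg] at h1
  have h2 : ∫ z in L, |(Φ' z).det| • (Φ z).1 = ∫ z in L, (Φ z).1 := by
    refine setIntegral_congr_fun hopen.measurableSet (fun z hz => ?_)
    simp only [hdet z hz, one_smul]
  rw [h2] at h1
  obtain ⟨R, hR⟩ := hbd.exists_norm_le
  have hfin : IsFiniteMeasure ((volume : Measure (ℝ × ℝ)).restrict L) :=
    ⟨by rw [Measure.restrict_apply_univ]; exact hbd.measure_lt_top⟩
  have i1 : IntegrableOn (fun z : ℝ × ℝ => z.1) L := by
    refine Integrable.of_bound measurable_fst.aestronglyMeasurable R ?_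
    refine (ae_restrict_iff' hopen.measurableSet).mpr (Filter.Eventually.of_forall fun z hz => ?_)
    exact (norm_fst_le z).trans (hR z hz)
  have hΦc : ContinuousOn Φ L := fun z hz => (hd z hz).continuousAt.continuousWithinAt
  have i2 : IntegrableOn (fun z : ℝ × ℝ => (Φ z).1) L := by
    refine Integrable.of_bound
      ((continuous_fst.comp_continuousOn hΦc).aestronglyMeasurable hopen.measurableSet) R ?_
    refine (ae_restrict_iff' hopen.measurableSet).mpr (Filter.Eventually.of_forall fun z hz => ?_)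
    have hz' : Φ z ∈ L := himg ▸ mem_image_of_mem Φ hz
    exact (norm_fst_le _).trans (hR _ hz')
  refine ⟨i1.sub i2, ?_⟩
  rw [integral_sub i1 i2, h1, sub_self]

/-- A function with zero integral over a nonempty open set is not positive there. -/
lemma not_pos_of_integral_zero (L : Set (ℝ × ℝ)) (f : ℝ × ℝ → ℝ) (hopen : IsOpen L)
    (hne : L.Nonempty) (hi : IntegrableOn f L) (h0 : ∫ z in L, f z = 0)
    (hpos : ∀ z ∈ L, 0 < f z) : False := by
  have h4 : 0 < ∫ z in L, f z := by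
    rw [setIntegral_pos_iff_support_of_nonneg_ae]
    · have h5 : Function.support f ∩ L = L := by
        refine inter_eq_right.mpr fun z hz => ?_
        exact (hpos z hz).ne'
      rw [h5]
      exact hopen.measure_pos volume hne
    · refine (ae_restrict_iff' hopen.measurableSet).mpr (Filter.Eventually.of_forall fun z hz => ?_)
      exact (hpos z hz).le
    · exact hi
  linarith

/-- An area preserving injective map cannot push a bounded nonempty open invariant set to the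
left. -/
lemma no_push (Φ : ℝ × ℝ → ℝ × ℝ) (Φ' : ℝ × ℝ → ℝ × ℝ →L[ℝ] ℝ × ℝ) (L : Set (ℝ × ℝ))
    (hopen : IsOpen L) (hne : L.Nonempty) (hbd : Bornology.IsBounded L)
    (hd : ∀ z ∈ L, HasFDerivAt Φ (Φ' z) z) (hdet : ∀ z ∈ L, |(Φ' z).det| = 1)
    (hinj : InjOn Φ L) (himg : Φ '' L = L) (hpush : ∀ z ∈ L, (Φ z).1 < z.1) : False := by
  obtain ⟨h1, h2⟩ := push_zero Φ Φ' L hopen hbd hd hdet hinj himg
  exact not_pos_of_integral_zero L _ hopen hne h1 h2 (fun z hz => by
    have := hpush z hz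
    linarith)

/-- An area preserving injective map cannot push a bounded nonempty open invariant set to the
right. -/
lemma no_push' (Φ : ℝ × ℝ → ℝ × ℝ) (Φ' : ℝ × ℝ → ℝ × ℝ →L[ℝ] ℝ × ℝ) (L : Set (ℝ × ℝ))
    (hopen : IsOpen L) (hne : L.Nonempty) (hbd : Bornology.IsBounded L)
    (hd : ∀ z ∈ L, HasFDerivAt Φ (Φ' z) z) (hdet : ∀ z ∈ L, |(Φ' z).det| = 1)
    (hinj : InjOn Φ L) (himg : Φ '' L = L) (hpush : ∀ z ∈ L, z.1 < (Φ z).1) : False := by
  obtain ⟨h1, h2⟩ := push_zero Φ Φ' L hopen hbd hd hdet hinj himg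
  refine not_pos_of_integral_zero L (fun z => -(z.1 - (Φ z).1)) hopen hne h1.neg ?_ (fun z hz => by
    have := hpush z hz
    linarith)
  rw [integral_neg, h2, neg_zero]

lemma u_add_int (h : Fol F u) (c x : ℝ) (p : ℤ) : u c (x + p) = u c x := by
  induction p using Int.induction_on with
  | zero => simp
  | succ n ih =>
    have : x + ((n : ℤ) + 1 : ℤ) = (x + (n : ℤ)) + 1 := by push_cast; ring
    rw [this, h.uper, ih]
  | pred n ih =>
    have h1 := h.uper c (x + ((-(n : ℤ) - 1 : ℤ) : ℝ))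
    have : (x + ((-(n : ℤ) - 1 : ℤ) : ℝ)) + 1 = x + ((-(n : ℤ) : ℤ) : ℝ) := by push_cast; ring
    rw [this, ih] at h1
    exact h1.symm

lemma u_sub_int (h : Fol F u) (c x : ℝ) (p : ℤ) : u c (x - p) = u c x := by
  have h1 := u_add_int h c (x - p) p
  rw [sub_add_cancel] at h1
  exact h1.symm

lemma gi_add_int (h : Fol F u) (c : ℝ) (k : ℕ) (x : ℝ) (p : ℤ) :
    (g F u c)^[k] (x + p) = (g F u c)^[k] x + p := by
  induction p using Int.induction_on with
  | zero => simp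
  | succ n ih =>
    have : x + ((n : ℤ) + 1 : ℤ) = (x + (n : ℤ)) + 1 := by push_cast; ring
    rw [this, gi_add_one h, ih]; push_cast; ring
  | pred n ih =>
    have h1 := gi_add_one h c k (x + ((-(n : ℤ) - 1 : ℤ) : ℝ))
    have : (x + ((-(n : ℤ) - 1 : ℤ) : ℝ)) + 1 = x + ((-(n : ℤ) : ℤ) : ℝ) := by push_cast; ring
    rw [this, ih] at h1
    push_cast at h1 ⊢
    linarith

/-- A leaf above a given leaf. -/
lemma above (h : Fol F u) (c : ℝ) : ∃ d, ∀ x, u c x < u d x := by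
  obtain ⟨d, hd⟩ := leaf_exists h 0 (u c 0 + 1)
  exact ⟨d, fun x => order h (show u c 0 < u d 0 by rw [← hd]; linarith) x⟩

/-- A leaf below a given leaf. -/
lemma below (h : Fol F u) (c : ℝ) : ∃ d, ∀ x, u d x < u c x := by
  obtain ⟨d, hd⟩ := leaf_exists h 0 (u c 0 - 1)
  exact ⟨d, fun x => order h (show u d 0 < u c 0 by rw [← hd]; linarith) x⟩

lemma strip_bdd (f₁ f₂ : ℝ → ℝ) (h₁ : Continuous f₁) (h₂ : Continuous f₂) (a b : ℝ)
    (L : Set (ℝ × ℝ)) (hL : ∀ z ∈ L, (a ≤ z.1 ∧ z.1 ≤ b) ∧ f₁ z.1 ≤ z.2 ∧ z.2 ≤ f₂ z.1) :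
    Bornology.IsBounded L := by
  obtain ⟨A, hA⟩ := (isCompact_Icc (a := a) (b := b)).exists_bound_of_continuousOn h₁.continuousOn
  obtain ⟨B, hB⟩ := (isCompact_Icc (a := a) (b := b)).exists_bound_of_continuousOn h₂.continuousOn
  have hsub : L ⊆ Icc a b ×ˢ Icc (-A) B := by
    intro z hz
    obtain ⟨h1, h2, h3⟩ := hL z hz
    have h4 := hA z.1 ⟨h1.1, h1.2⟩
    have h5 := hB z.1 ⟨h1.1, h1.2⟩
    rw [Real.norm_eq_abs, abs_le] at h4 h5
    exact ⟨⟨h1.1, h1.2⟩, ⟨by linarith [h4.1], by linarith [h5.2]⟩⟩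
  exact ((isCompact_Icc.prod isCompact_Icc).isBounded).subset hsub

/-- The translate of the iterate by an integer. -/
def G (F : ℝ × ℝ → ℝ × ℝ) (q : ℕ) (p : ℤ) (z : ℝ × ℝ) : ℝ × ℝ :=
  F^[q] z - ((p : ℝ), 0)

lemma G_leaf (h : Fol F u) (q : ℕ) (p : ℤ) (c x : ℝ) :
    G F q p (x, u c x) = ((g F u c)^[q] x - p, u c ((g F u c)^[q] x - p)) := by
  unfold G
  rw [F_iter h, u_sub_int h]
  simp

lemma G_inj (h : Fol F u) (q : ℕ) (p : ℤ) : Injective (G F q p) := by
  intro z w e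
  exact (h.bij.1.iterate q) (sub_left_injective e)

lemma G_diff (h : Fol F u) (q : ℕ) (p : ℤ) (z : ℝ × ℝ) :
    HasFDerivAt (G F q p) (fderiv ℝ (F^[q]) z) z :=
  (iter_diff h q z).sub_const _

/-- On a leaf with a periodic point no point is moved to the left by the return map. -/
lemma not_left (h : Fol F u) (c : ℝ) (q : ℕ) (p : ℤ) (x₀ : ℝ)
    (h₀ : (g F u c)^[q + 1] x₀ = x₀ + p) (x : ℝ) : x + p ≤ (g F u c)^[q + 1] x := by
  by_contra hx
  have hx' : (g F u c)^[q + 1] x < x + p := not_le.mp hx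
  obtain ⟨d, hd⟩ := above h c
  have hfix : ∀ k : ℤ, (g F u c)^[q + 1] (x₀ + k) = x₀ + k + p := by
    intro k; rw [gi_add_int h, h₀]; ring
  -- fixed points on both sides
  set k : ℤ := ⌊x - x₀⌋ with hk
  have ha : (x₀ + k : ℝ) ≤ x := by have := Int.floor_le (x - x₀); linarith
  have hb : x < x₀ + k + 1 := by have := Int.lt_floor_add_one (x - x₀); linarith
  set a : ℝ := x₀ + k with ha_def
  set b : ℝ := x₀ + k + 1 with hb_def
  have fa : (g F u c)^[q + 1] a = a + p := hfix k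
  have fb : (g F u c)^[q + 1] b = b + p := by
    have := hfix (k + 1)
    push_cast at this
    rw [hb_def]
    rw [← add_assoc] at this
    exact this
  have ha' : a < x := by
    rcases ha.lt_or_eq with h1 | h1
    · exact h1
    · exfalso; rw [← h1, fa] at hx'; exact lt_irrefl _ hx'
  let L : Set (ℝ × ℝ) := {z | (a < z.1 ∧ z.1 < b) ∧ (u c z.1 < z.2 ∧ z.2 < u d z.1) ∧
    (F^[q + 1] z).1 < z.1 + p}
  have hcF : Continuous (F^[q + 1]) := by
    rw [← continuousOn_univ]; exact (iter_an h (q + 1)).continuousOn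
  have hLopen : IsOpen L := by
    refine IsOpen.inter (IsOpen.inter ?_ ?_) (IsOpen.inter (IsOpen.inter ?_ ?_) ?_)
    · exact isOpen_lt continuous_const continuous_fst
    · exact isOpen_lt continuous_fst continuous_const
    · exact isOpen_lt ((h.cont c).comp continuous_fst) continuous_snd
    · exact isOpen_lt continuous_snd ((h.cont d).comp continuous_fst)
    · exact isOpen_lt (continuous_fst.comp hcF) (continuous_fst.add continuous_const)
  have hLne : L.Nonempty := by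
    -- a point slightly above the leaf
    have hc1 : Continuous fun t : ℝ => (F^[q + 1] (x, t)).1 :=
      continuous_fst.comp (hcF.comp (continuous_const.prodMk continuous_id))
    have h1 : (F^[q + 1] (x, u c x)).1 < x + p := by rw [F_iter h]; exact hx'
    have h2 : ∀ᶠ t in nhds (u c x), (F^[q + 1] (x, t)).1 < x + p :=
      hc1.continuousAt.eventually_lt continuousAt_const h1
    have h3 : ∀ᶠ t in nhds (u c x), t < u d x := eventually_lt_nhds (hd x)
    have h4 : ∀ᶠ t in nhdsWithin (u c x) (Ioi (u c x)),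
        (F^[q + 1] (x, t)).1 < x + p ∧ t < u d x :=
      (h2.and h3).filter_mono nhdsWithin_le_nhds
    obtain ⟨t, ⟨h5, h6⟩, h7⟩ := (h4.and self_mem_nhdsWithin).exists
    exact ⟨(x, t), ⟨ha', hb⟩, ⟨h7, h6⟩, h5⟩
  have hLb : Bornology.IsBounded L :=
    strip_bdd (u c) (u d) (h.cont c) (h.cont d) a b L
      (fun z hz => ⟨⟨hz.1.1.le, hz.1.2.le⟩, hz.2.1.1.le, hz.2.1.2.le⟩)
  -- description on the leaves
  have hleaf : ∀ z ∈ L, ∃ e, z.2 = u e z.1 ∧ (∀ y, u c y < u e y) ∧ (∀ y, u e y < u d y) ∧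
      (g F u e)^[q + 1] z.1 < z.1 + p := by
    rintro ⟨x, y⟩ ⟨hz1, hz2, hz3⟩
    obtain ⟨e, he⟩ := leaf_exists h x y
    refine ⟨e, he, fun t => order h (x := x) ?_ t, fun t => order h (x := x) ?_ t, ?_⟩
    · rw [← he]; exact hz2.1
    · rw [← he]; exact hz2.2
    · simp only at hz3 ⊢
      rw [he, F_iter h] at hz3
      exact hz3
  have key : ∀ e x, (∀ y, u c y < u e y) → (∀ y, u e y < u d y) → a < x → x < b →
      (g F u e)^[q + 1] x < x + p → (x, u e x) ∈ L := by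
    intro e x h1 h2 h3 h4 h5
    refine ⟨⟨h3, h4⟩, ⟨h1 x, h2 x⟩, ?_⟩
    rw [F_iter h]; exact h5
  have himg : G F (q + 1) p '' L = L := by
    apply Subset.antisymm
    · rintro _ ⟨⟨x, y⟩, hz, rfl⟩
      obtain ⟨e, he, h1, h2, h3⟩ := hleaf _ hz
      simp only at he h3
      rw [he, G_leaf h]
      have h4 : a + p < (g F u e)^[q + 1] x :=
        calc a + p = (g F u c)^[q + 1] a := fa.symm
          _ < (g F u e)^[q + 1] a := gi_lt h (h1 0) q a
          _ < (g F u e)^[q + 1] x := gi_mono h e (q + 1) hz.1.1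
      refine key e _ h1 h2 (by linarith) (by have := hz.1.2; simp only at this; linarith) ?_
      have h5 : (g F u e)^[q + 1] x - p < x := by linarith
      have h6 := gi_mono h e (q + 1) h5
      linarith
    · rintro ⟨x, y⟩ hz
      obtain ⟨e, he, h1, h2, h3⟩ := hleaf _ hz
      simp only at he h3
      obtain ⟨w, hw⟩ := gi_surj h e (q + 1) (x + p)
      have hxw : x < w := by
        by_contra hcon
        have h4 := (gi_mono h e (q + 1)).monotone (not_lt.mp hcon)
        rw [hw] at h4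
        linarith
      have hwb : w < b := by
        by_contra hcon
        have h4 := (gi_mono h e (q + 1)).monotone (not_lt.mp hcon)
        rw [hw] at h4
        have h5 := gi_lt h (h1 0) q b
        rw [fb] at h5
        have h6 := hz.1.2
        simp only at h6
        linarith
      refine ⟨(w, u e w), key e w h1 h2 (hz.1.1.trans hxw) hwb (by rw [hw]; linarith), ?_⟩
      rw [G_leaf h, hw, he]
      simp
  refine no_push (G F (q + 1) p) (fun z => fderiv ℝ (F^[q + 1]) z) L hLopen hLne hLb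
    (fun z _ => G_diff h (q + 1) p z) (fun z _ => by rw [iter_det h]; simp)
    (G_inj h (q + 1) p).injOn himg ?_
  intro z hz
  have h1 := hz.2.2
  show (F^[q + 1] z - ((p : ℝ), 0)).1 < z.1
  simp only [Prod.fst_sub]
  linarith

/-- On a leaf with a periodic point no point is moved to the right by the return map. -/
lemma not_right (h : Fol F u) (c : ℝ) (q : ℕ) (p : ℤ) (x₀ : ℝ)
    (h₀ : (g F u c)^[q + 1] x₀ = x₀ + p) (x : ℝ) : (g F u c)^[q + 1] x ≤ x + p := by
  by_contra hx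
  have hx' : x + p < (g F u c)^[q + 1] x := not_le.mp hx
  obtain ⟨d, hd⟩ := below h c
  have hfix : ∀ k : ℤ, (g F u c)^[q + 1] (x₀ + k) = x₀ + k + p := by
    intro k; rw [gi_add_int h, h₀]; ring
  set k : ℤ := ⌊x - x₀⌋ with hk
  have ha : (x₀ + k : ℝ) ≤ x := by have := Int.floor_le (x - x₀); linarith
  have hb : x < x₀ + k + 1 := by have := Int.lt_floor_add_one (x - x₀); linarith
  set a : ℝ := x₀ + k with ha_def
  set b : ℝ := x₀ + k + 1 with hb_def
  have fa : (g F u c)^[q + 1] a = a + p := hfix k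
  have fb : (g F u c)^[q + 1] b = b + p := by
    have := hfix (k + 1)
    push_cast at this
    rw [hb_def]
    rw [← add_assoc] at this
    exact this
  have ha' : a < x := by
    rcases ha.lt_or_eq with h1 | h1
    · exact h1
    · exfalso; rw [← h1, fa] at hx'; exact lt_irrefl _ hx'
  let L : Set (ℝ × ℝ) := {z | (a < z.1 ∧ z.1 < b) ∧ (u d z.1 < z.2 ∧ z.2 < u c z.1) ∧
    z.1 + p < (F^[q + 1] z).1}
  have hcF : Continuous (F^[q + 1]) := by
    rw [← continuousOn_univ]; exact (iter_an h (q + 1)).continuousOn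
  have hLopen : IsOpen L := by
    refine IsOpen.inter (IsOpen.inter ?_ ?_) (IsOpen.inter (IsOpen.inter ?_ ?_) ?_)
    · exact isOpen_lt continuous_const continuous_fst
    · exact isOpen_lt continuous_fst continuous_const
    · exact isOpen_lt ((h.cont d).comp continuous_fst) continuous_snd
    · exact isOpen_lt continuous_snd ((h.cont c).comp continuous_fst)
    · exact isOpen_lt (continuous_fst.add continuous_const) (continuous_fst.comp hcF)
  have hLne : L.Nonempty := by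
    have hc1 : Continuous fun t : ℝ => (F^[q + 1] (x, t)).1 :=
      continuous_fst.comp (hcF.comp (continuous_const.prodMk continuous_id))
    have h1 : x + p < (F^[q + 1] (x, u c x)).1 := by rw [F_iter h]; exact hx'
    have h2 : ∀ᶠ t in nhds (u c x), x + p < (F^[q + 1] (x, t)).1 :=
      continuousAt_const.eventually_lt hc1.continuousAt h1
    have h3 : ∀ᶠ t in nhds (u c x), u d x < t := eventually_gt_nhds (hd x)
    have h4 : ∀ᶠ t in nhdsWithin (u c x) (Iio (u c x)),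
        x + p < (F^[q + 1] (x, t)).1 ∧ u d x < t :=
      (h2.and h3).filter_mono nhdsWithin_le_nhds
    obtain ⟨t, ⟨h5, h6⟩, h7⟩ := (h4.and self_mem_nhdsWithin).exists
    exact ⟨(x, t), ⟨ha', hb⟩, ⟨h6, h7⟩, h5⟩
  have hLb : Bornology.IsBounded L :=
    strip_bdd (u d) (u c) (h.cont d) (h.cont c) a b L
      (fun z hz => ⟨⟨hz.1.1.le, hz.1.2.le⟩, hz.2.1.1.le, hz.2.1.2.le⟩)
  have hleaf : ∀ z ∈ L, ∃ e, z.2 = u e z.1 ∧ (∀ y, u d y < u e y) ∧ (∀ y, u e y < u c y) ∧
      z.1 + p < (g F u e)^[q + 1] z.1 := by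
    rintro ⟨x, y⟩ ⟨hz1, hz2, hz3⟩
    obtain ⟨e, he⟩ := leaf_exists h x y
    refine ⟨e, he, fun t => order h (x := x) ?_ t, fun t => order h (x := x) ?_ t, ?_⟩
    · rw [← he]; exact hz2.1
    · rw [← he]; exact hz2.2
    · simp only at hz3 ⊢
      rw [he, F_iter h] at hz3
      exact hz3
  have key : ∀ e x, (∀ y, u d y < u e y) → (∀ y, u e y < u c y) → a < x → x < b →
      x + p < (g F u e)^[q + 1] x → (x, u e x) ∈ L := by
    intro e x h1 h2 h3 h4 h5
    refine ⟨⟨h3, h4⟩, ⟨h1 x, h2 x⟩, ?_⟩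
    rw [F_iter h]; exact h5
  have himg : G F (q + 1) p '' L = L := by
    apply Subset.antisymm
    · rintro _ ⟨⟨x, y⟩, hz, rfl⟩
      obtain ⟨e, he, h1, h2, h3⟩ := hleaf _ hz
      simp only at he h3
      rw [he, G_leaf h]
      have h4 : (g F u e)^[q + 1] x < b + p :=
        calc (g F u e)^[q + 1] x < (g F u e)^[q + 1] b := gi_mono h e (q + 1) hz.1.2
          _ < (g F u c)^[q + 1] b := gi_lt h (h2 0) q b
          _ = b + p := fb
      refine key e _ h1 h2 (by have := hz.1.1; simp only at this; linarith) (by linarith) ?_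
      have h5 : x < (g F u e)^[q + 1] x - p := by linarith
      have h6 := gi_mono h e (q + 1) h5
      linarith
    · rintro ⟨x, y⟩ hz
      obtain ⟨e, he, h1, h2, h3⟩ := hleaf _ hz
      simp only at he h3
      obtain ⟨w, hw⟩ := gi_surj h e (q + 1) (x + p)
      have hxw : w < x := by
        by_contra hcon
        have h4 := (gi_mono h e (q + 1)).monotone (not_lt.mp hcon)
        rw [hw] at h4
        linarith
      have hwa : a < w := by
        by_contra hcon
        have h4 := (gi_mono h e (q + 1)).monotone (not_lt.mp hcon)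
        rw [hw] at h4
        have h5 := gi_lt h (h2 0) q a
        rw [fa] at h5
        have h6 := hz.1.1
        simp only at h6
        linarith
      refine ⟨(w, u e w), key e w h1 h2 hwa (hxw.trans hz.1.2) (by rw [hw]; linarith), ?_⟩
      rw [G_leaf h, hw, he]
      simp
  refine no_push' (G F (q + 1) p) (fun z => fderiv ℝ (F^[q + 1]) z) L hLopen hLne hLb
    (fun z _ => G_diff h (q + 1) p z) (fun z _ => by rw [iter_det h]; simp)
    (G_inj h (q + 1) p).injOn himg ?_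
  intro z hz
  have h1 := hz.2.2
  show z.1 < (F^[q + 1] z - ((p : ℝ), 0)).1
  simp only [Prod.fst_sub]
  linarith

/-- A leaf with a periodic point consists of periodic points. -/
lemma all_periodic (h : Fol F u) (c : ℝ) (q : ℕ) (p : ℤ) (x₀ : ℝ)
    (h₀ : (g F u c)^[q + 1] x₀ = x₀ + p) (x : ℝ) : (g F u c)^[q + 1] x = x + p :=
  le_antisymm (not_right h c q p x₀ h₀ x) (not_left h c q p x₀ h₀ x)

/-- A leaf consisting of periodic points is analytic. -/
lemma analytic_leaf (h : Fol F u) (c : ℝ) (q : ℕ) (p : ℤ)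
    (hper : ∀ x, (g F u c)^[q + 1] x = x + p) (x₁ : ℝ) : AnalyticAt ℝ (u c) x₁ := by
  set Ψ : ℝ × ℝ → ℝ × ℝ := fun z => (z.1, (F^[q + 1] z).1) with hΨ
  set z₁ : ℝ × ℝ := (x₁, u c x₁) with hz₁
  set D := fderiv ℝ (F^[q + 1]) z₁ with hD
  have hΨval : ∀ x, Ψ (x, u c x) = (x, x + p) := by
    intro x
    simp only [hΨ]
    rw [F_iter h, hper]
  have hΨan : AnalyticAt ℝ Ψ z₁ :=
    analyticAt_fst.prod (analyticAt_fst.comp ((iter_an h (q + 1)) z₁ (mem_univ _)))
  let T : ℝ × ℝ →L[ℝ] ℝ × ℝ :=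
    (ContinuousLinearMap.fst ℝ ℝ ℝ).prod ((ContinuousLinearMap.fst ℝ ℝ ℝ).comp D)
  have hT : HasFDerivAt Ψ T z₁ :=
    hasFDerivAt_fst.prodMk ((hasFDerivAt_fst (p := F^[q + 1] z₁)).comp z₁ (iter_diff h (q + 1) z₁))
  have hTinj : Injective (T : ℝ × ℝ →ₗ[ℝ] ℝ × ℝ) := by
    rw [injective_iff_map_eq_zero]
    intro v hv
    have h1 : v.1 = 0 := congrArg Prod.fst hv
    have h2 : (D v).1 = 0 := congrArg Prod.snd hv
    have h3 := apply_plane (D : ℝ × ℝ →ₗ[ℝ] ℝ × ℝ) v
    have h4 : (D v).1 = v.1 * (D (1, 0)).1 + v.2 * (D (0, 1)).1 := congrArg Prod.fst h3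
    rw [h1, zero_mul, zero_add, h2] at h4
    have h5 : 0 < (D (0, 1)).1 := Xk_deriv_pos h q z₁
    have h6 : v.2 = 0 := by
      rcases mul_eq_zero.mp h4.symm with h7 | h7
      · exact h7
      · exact absurd h7 h5.ne'
    exact Prod.ext h1 h6
  let i : (ℝ × ℝ) ≃L[ℝ] (ℝ × ℝ) :=
    (LinearEquiv.ofInjectiveEndo (T : ℝ × ℝ →ₗ[ℝ] ℝ × ℝ) hTinj).toContinuousLinearEquiv
  have hi : (i : ℝ × ℝ →L[ℝ] ℝ × ℝ) = T := by
    apply ContinuousLinearMap.ext
    intro v
    rfl
  have hfd : HasStrictFDerivAt Ψ (i : ℝ × ℝ →L[ℝ] ℝ × ℝ) z₁ := by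
    rw [hi]
    have h1 := hΨan.hasStrictFDerivAt
    rwa [hT.fderiv] at h1
  let R : OpenPartialHomeomorph (ℝ × ℝ) (ℝ × ℝ) := hfd.toOpenPartialHomeomorph Ψ
  have hR : (R : ℝ × ℝ → ℝ × ℝ) = Ψ := rfl
  have hx : z₁ ∈ R.source := hfd.mem_toOpenPartialHomeomorph_source
  have hRan : AnalyticAt ℝ R.symm (R z₁) := by
    refine R.analyticAt_symm' (i := i) hx hΨan ?_
    rw [hR, hT.fderiv, hi]
  have hRz : R z₁ = (x₁, x₁ + p) := hΨval x₁
  rw [hRz] at hRan
  have hcomp : AnalyticAt ℝ (fun x : ℝ => (R.symm (x, x + p)).2) x₁ := by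
    have h1 : AnalyticAt ℝ (fun x : ℝ => ((x, x + p) : ℝ × ℝ)) x₁ :=
      analyticAt_id.prod (analyticAt_id.add analyticAt_const)
    exact analyticAt_snd.comp (hRan.comp_of_eq h1 rfl)
  refine hcomp.congr ?_
  have hcu : Continuous fun x : ℝ => ((x, u c x) : ℝ × ℝ) := continuous_id.prodMk (h.cont c)
  have h1 : ∀ᶠ x in nhds x₁, (x, u c x) ∈ R.source :=
    hcu.continuousAt.eventually (R.open_source.mem_nhds hx)
  filter_upwards [h1] with x hx
  have h2 := R.left_inv hx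
  rw [hR, hΨval] at h2
  rw [h2]

/-! ### Leaves with periodic points are dense -/

/-- The dynamics on a leaf as a degree one lift. -/
def lift (h : Fol F u) (c : ℝ) : CircleDeg1Lift where
  toFun := g F u c
  monotone' := (g_mono h c).monotone
  map_add_one' := g_add_one h c

lemma one_sided (τ ε : ℝ) (hε : 0 < ε) :
    ∃ (q : ℕ) (p : ℤ), 1 ≤ q ∧ 0 ≤ (p : ℝ) - q * τ ∧ (p : ℝ) - q * τ < ε := by
  obtain ⟨n, hn⟩ := exists_nat_one_div_lt (lt_min hε one_pos)
  obtain ⟨k, hk, -, hkn⟩ := Real.exists_nat_abs_mul_sub_round_le τ (Nat.succ_pos n)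
  set r : ℤ := round ((k : ℝ) * τ) with hr
  set δ : ℝ := (k : ℝ) * τ - r with hδ
  have h1 : |δ| < min ε 1 := by
    refine lt_of_le_of_lt hkn (lt_of_le_of_lt ?_ hn)
    apply one_div_le_one_div_of_le (by positivity)
    push_cast
    linarith
  have h2 : |δ| < ε := lt_of_lt_of_le h1 (min_le_left _ _)
  have h3 : |δ| < 1 := lt_of_lt_of_le h1 (min_le_right _ _)
  rcases le_or_gt δ 0 with h4 | h4
  · refine ⟨k, r, hk, by linarith, ?_⟩
    have := (abs_lt.mp h2).1
    linarith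
  · set N : ℕ := ⌊1 / δ⌋₊ with hN
    have h5 : δ < 1 := (abs_lt.mp h3).2
    have h6 : (1 : ℝ) ≤ 1 / δ := by rw [le_div_iff₀ h4]; linarith
    have h7 : 1 ≤ N := Nat.le_floor (by rw [Nat.cast_one]; exact h6)
    have h8 : (N : ℝ) ≤ 1 / δ := Nat.floor_le (by positivity)
    have h9 : 1 / δ < N + 1 := Nat.lt_floor_add_one _
    rw [le_div_iff₀ h4] at h8
    rw [div_lt_iff₀ h4] at h9
    refine ⟨N * k, N * r + 1, Nat.one_le_iff_ne_zero.mpr (by positivity), ?_, ?_⟩
    · push_cast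
      have : (N : ℝ) * r + 1 - N * k * τ = 1 - N * δ := by rw [hδ]; ring
      rw [this]; linarith
    · push_cast
      have : (N : ℝ) * r + 1 - N * k * τ = 1 - N * δ := by rw [hδ]; ring
      rw [this]
      have h10 := (abs_lt.mp h2).2
      nlinarith

/-- Between two leaves there is a leaf with a periodic point. -/
lemma exists_periodic_between (h : Fol F u) (a b : ℝ) (hab : ∀ x, u a x < u b x) :
    ∃ c, (∀ x, u a x ≤ u c x ∧ u c x ≤ u b x) ∧
      ∃ (x : ℝ) (q : ℕ) (p : ℤ), (g F u c)^[q + 1] x = x + p := by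
  -- uniform gap between the two leaf dynamics
  obtain ⟨ε, hε, hgap⟩ : ∃ ε : ℝ, 0 < ε ∧ ∀ x, g F u a x + ε ≤ g F u b x := by
    have hc : Continuous fun x => g F u b x - g F u a x := (g_cont h b).sub (g_cont h a)
    obtain ⟨y, -, hy⟩ := (isCompact_Icc (a := (0 : ℝ)) (b := 1)).exists_isMinOn
      ⟨0, by simp⟩ hc.continuousOn
    refine ⟨g F u b y - g F u a y, ?_, fun x => ?_⟩
    · have := gi_lt h (hab y) 0 y
      simp only [zero_add, iterate_one] at this
      linarith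
    · have h1 := hy (show Int.fract x ∈ Icc (0 : ℝ) 1 from
        ⟨Int.fract_nonneg x, (Int.fract_lt_one x).le⟩)
      have h2 := gi_add_int h a 1 (Int.fract x) ⌊x⌋
      have h3 := gi_add_int h b 1 (Int.fract x) ⌊x⌋
      simp only [iterate_one, Int.fract_add_floor] at h2 h3
      have h1 : g F u b y - g F u a y ≤ g F u b (Int.fract x) - g F u a (Int.fract x) := h1
      linarith
  have hgapk : ∀ (k : ℕ) (x : ℝ), (g F u a)^[k + 1] x + ε ≤ (g F u b)^[k + 1] x := by
    intro k x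
    have hle : (g F u a)^[k] x ≤ (g F u b)^[k] x := by
      cases k with
      | zero => exact le_rfl
      | succ k => exact (gi_lt h (hab x) k x).le
    rw [iterate_succ_apply', iterate_succ_apply']
    exact (hgap _).trans ((g_mono h b).monotone hle)
  -- the translation number of the lower leaf
  set f : CircleDeg1Lift := lift h a with hf
  obtain ⟨q, p, hq, h1, h2⟩ := one_sided f.translationNumber ε hε
  obtain ⟨k, rfl⟩ : ∃ k, q = k + 1 := ⟨q - 1, by omega⟩
  have hpow : ∀ x, (f ^ (k + 1)) x = (g F u a)^[k + 1] x := by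
    intro x; rw [CircleDeg1Lift.coe_pow]; rfl
  have hτ : (f ^ (k + 1)).translationNumber = ((k + 1 : ℕ) : ℝ) * f.translationNumber :=
    CircleDeg1Lift.translationNumber_pow f (k + 1)
  have hcontf : Continuous (f ^ (k + 1)) := by
    have : (⇑(f ^ (k + 1)) : ℝ → ℝ) = (g F u a)^[k + 1] := funext hpow
    rw [this]; exact gi_cont h a (k + 1)
  obtain ⟨x', hx'⟩ : ∃ x, (g F u a)^[k + 1] x ≤ x + p := by
    by_contra hcon
    have h3 : ∀ x, x + (p : ℝ) < (f ^ (k + 1)) x := by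
      intro x
      rw [hpow]
      exact not_le.mp fun h4 => hcon ⟨x, h4⟩
    have h4 := CircleDeg1Lift.lt_translationNumber_of_forall_add_lt (f ^ (k + 1)) hcontf h3
    rw [hτ] at h4
    linarith
  obtain ⟨x'', hx''⟩ : ∃ x, x + p - ε < (g F u a)^[k + 1] x := by
    by_contra hcon
    have h3 : ∀ x, (f ^ (k + 1)) x ≤ x + ((p : ℝ) - ε) := by
      intro x
      rw [hpow]
      have h5 : ¬ (x + p - ε < (g F u a)^[k + 1] x) := fun h4 => hcon ⟨x, h4⟩
      have := not_lt.mp h5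
      linarith
    have h4 := CircleDeg1Lift.translationNumber_le_of_le_add (f ^ (k + 1)) h3
    rw [hτ] at h4
    linarith
  obtain ⟨x, hxa, hxb⟩ : ∃ x, (g F u a)^[k + 1] x ≤ x + p ∧ x + p - ε < (g F u a)^[k + 1] x := by
    rcases le_or_gt ((g F u a)^[k + 1] x'') (x'' + p) with h3 | h3
    · exact ⟨x'', h3, hx''⟩
    · have hm : Continuous fun x => (g F u a)^[k + 1] x - x - p :=
        ((gi_cont h a (k + 1)).sub continuous_id).sub continuous_const
      obtain ⟨x, hx⟩ : (0 : ℝ) ∈ Set.range fun x => (g F u a)^[k + 1] x - x - p :=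
        mem_range_of_exists_le_of_exists_ge hm ⟨x', by linarith⟩ ⟨x'', by linarith⟩
      simp only at hx
      exact ⟨x, by linarith, by linarith⟩
  have hxc : x + p ≤ (g F u b)^[k + 1] x := by
    have := hgapk k x
    linarith
  -- intermediate value theorem on the vertical segment over `x`
  have hcF : Continuous (F^[k + 1]) := by
    rw [← continuousOn_univ]; exact (iter_an h (k + 1)).continuousOn
  have hc1 : Continuous fun t : ℝ => (F^[k + 1] (x, t)).1 :=
    continuous_fst.comp (hcF.comp (continuous_const.prodMk continuous_id))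
  have hmem : x + (p : ℝ) ∈ (fun t : ℝ => (F^[k + 1] (x, t)).1) '' Icc (u a x) (u b x) := by
    apply intermediate_value_Icc (hab x).le hc1.continuousOn
    constructor
    · show (F^[k + 1] (x, u a x)).1 ≤ x + p
      rw [F_iter h]; exact hxa
    · show x + p ≤ (F^[k + 1] (x, u b x)).1
      rw [F_iter h]; exact hxc
  obtain ⟨t, ⟨ht1, ht2⟩, ht3⟩ := hmem
  obtain ⟨c, hc⟩ := leaf_exists h x t
  subst hc
  simp only at ht3
  rw [F_iter h] at ht3
  have hle : ∀ c d : ℝ, u c x ≤ u d x → ∀ y, u c y ≤ u d y := by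
    intro c d hcd y
    rcases hcd.lt_or_eq with h3 | h3
    · exact (order h h3 y).le
    · rw [leaf_unique h h3]
  exact ⟨c, fun y => ⟨hle a c ht1 y, hle c b ht2 y⟩, x, k, p, ht3⟩

end

/-- **Main theorem.** If an analytic twist map of the cylinder is foliated by invariant curves then
every leaf that contains a periodic orbit is a real-analytic curve, and such leaves are dense: there
is one between any two leaves. -/
theorem result (F : ℝ × ℝ → ℝ × ℝ) (u : ℝ → ℝ → ℝ)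
    (han : AnalyticOnNhd ℝ F Set.univ)
    (hbij : Function.Bijective F)
    (hper : ∀ x y : ℝ, F (x + 1, y) = ((F (x, y)).1 + 1, (F (x, y)).2))
    (harea : ∀ p : ℝ × ℝ, LinearMap.det (fderiv ℝ F p : ℝ × ℝ →ₗ[ℝ] ℝ × ℝ) = 1)
    (htwist : ∀ x y : ℝ, 0 < deriv (fun t : ℝ => (F (x, t)).1) y)
    (hcont : ∀ c : ℝ, Continuous (u c))
    (huper : ∀ c x : ℝ, u c (x + 1) = u c x)
    (hinv : ∀ c x : ℝ, (F (x, u c x)).2 = u c (F (x, u c x)).1)
    (hfol : ∀ p : ℝ × ℝ, ∃! c : ℝ, p.2 = u c p.1) :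
    (∀ c : ℝ, (∃ (x : ℝ) (q : ℕ) (p : ℤ), 1 ≤ q ∧ F^[q] (x, u c x) = (x + p, u c x)) →
      AnalyticOnNhd ℝ (u c) Set.univ) ∧
    (∀ a b : ℝ, (∀ x, u a x < u b x) → ∃ c : ℝ, (∀ x, u a x ≤ u c x ∧ u c x ≤ u b x) ∧
      (∃ (x : ℝ) (q : ℕ) (p : ℤ), 1 ≤ q ∧ F^[q] (x, u c x) = (x + p, u c x))) := by
  have h : Fol F u := ⟨han, hbij, hper, harea, htwist, hcont, huper, hinv, hfol⟩
  refine ⟨fun c hperiodic => ?_, fun a b hab => ?_⟩
  · obtain ⟨x₀, q, p, hq, h₀⟩ := hperiodic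
    obtain ⟨k, rfl⟩ : ∃ k, q = k + 1 := ⟨q - 1, by omega⟩
    rw [F_iter h] at h₀
    have h₁ : (g F u c)^[k + 1] x₀ = x₀ + p := congrArg Prod.fst h₀
    intro x _
    exact analytic_leaf h c k p (all_periodic h c k p x₀ h₁) x
  · obtain ⟨c, hc, x, q, p, hx⟩ := exists_periodic_between h a b hab
    refine ⟨c, hc, x, q + 1, p, by omega, ?_⟩
    rw [F_iter h, hx, u_add_int h]

end Pool.Agent.Results.MP_39e2b7_an.RationalLeaves
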